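import Pool.Agent.H53.UK.Targets

/-!
MP_c62aed_lc, uniformly random formulas, permanent lines and work memory, row ARU (copy of
Pool/Agent/H20/MWK/ARM.lean).
-/

set_option autoImplicit false

namespace Pool.Agent.H90.UK

open Finset
open Pool.Agent.H53.UK
open Pool.Agent.H53.MC (Clause Falsified SatBy Line Circuit)
open Pool.Agent.H53.MW (Follows Session DerivesL geL DerivesR cb qp th0 th1)
open Pool.Agent.H15.FLX (BR)
open Pool.Agent.H97.SHL (DT bl)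

namespace ARUaux

theorem card_mono {α : Type} [Finite α] {P Q : α → Prop} (h : ∀ x, P x → Q x) :
    Nat.card {x // P x} ≤ Nat.card {x // Q x} :=
  Nat.card_le_card_of_injective (fun x : {x // P x} => (⟨x.1, h x.1 x.2⟩ : {x // Q x}))
    (fun _ _ hab => Subtype.ext (congrArg (fun z : {x // Q x} => z.1) hab))

theorem card_or {α : Type} [Finite α] (P Q : α → Prop) :
    Nat.card {x // P x ∨ Q x} ≤ Nat.card {x // P x} + Nat.card {x // Q x} := by
  classical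
  have := Fintype.ofFinite α
  simp only [Nat.card_eq_fintype_card]
  exact Fintype.card_subtype_or P Q

theorem card_ex {α : Type} [Finite α] (B : ℕ → α → Prop) (Y X : ℕ) :
    ∀ s : ℕ, (∀ i, i < s → Nat.card {x // B i x} * Y ≤ X) →
      Nat.card {x // ∃ i, i < s ∧ B i x} * Y ≤ s * X := by
  intro s
  induction s with
  | zero =>
    intro _
    have : IsEmpty {x : α // ∃ i, i < 0 ∧ B i x} := ⟨fun x => by
      obtain ⟨i, hi, _⟩ := x.2
      omega⟩
    simp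
  | succ s ih =>
    intro h
    have h1 := ih (fun i hi => h i (by omega))
    have h2 := h s (by omega)
    have h3 : Nat.card {x // ∃ i, i < s + 1 ∧ B i x} ≤
        Nat.card {x // (∃ i, i < s ∧ B i x) ∨ B s x} := by
      apply card_mono
      rintro x ⟨i, hi, hb⟩
      rcases Nat.lt_succ_iff_lt_or_eq.mp hi with h' | h'
      · exact Or.inl ⟨i, h', hb⟩
      · exact Or.inr (h' ▸ hb)
    have h4 := card_or (fun x => ∃ i, i < s ∧ B i x) (B s)
    calc _ ≤ (Nat.card {x // ∃ i, i < s ∧ B i x} + Nat.card {x // B s x}) * Y :=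
          Nat.mul_le_mul_right _ (h3.trans h4)
      _ = Nat.card {x // ∃ i, i < s ∧ B i x} * Y + Nat.card {x // B s x} * Y := by ring
      _ ≤ s * X + X := Nat.add_le_add h1 h2
      _ = (s + 1) * X := by ring

theorem le_two_pow {γ : ℝ} {n s : ℕ} (hγ : γ ≤ 1) (h : (s : ℝ) ≤ 2 ^ (γ * n)) :
    s ≤ 2 ^ n := by
  have h1 : (2 : ℝ) ^ (γ * n) ≤ 2 ^ ((n : ℕ) : ℝ) := by
    apply Real.rpow_le_rpow_of_exponent_le (by norm_num)
    have : (0 : ℝ) ≤ n := Nat.cast_nonneg n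
    nlinarith
  rw [Real.rpow_natCast] at h1
  have h2 : (s : ℝ) ≤ 2 ^ n := h.trans h1
  exact_mod_cast h2

theorem pow_split {γ : ℝ} (n : ℕ) : (2 : ℝ) ^ (γ * n) * 2 ^ ((1 - γ) * n) = 2 ^ n := by
  rw [← Real.rpow_add (by norm_num)]
  have : γ * n + (1 - γ) * n = ((n : ℕ) : ℝ) := by ring
  rw [this, Real.rpow_natCast]

/-- the family of the sets of all functions is small -/
theorem fam (hCHN : Pool.Agent.H53.MW.T_CHN) {n : ℕ} (E : ℕ → Finset (Fin n → Bool))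
    (f : ℕ → (Fin n → Bool) → ℝ) (N : ℕ) (hN : N ≤ 2 ^ n) :
    ∃ 𝓕 : Finset (Finset (Fin n → Bool)), (∀ i, i < N → ∀ a : ℝ, BR (E i) (f i) a ∈ 𝓕) ∧
      𝓕.card ≤ 2 ^ (2 * n + 2) := by
  classical
  refine ⟨(range N).biUnion fun i => univ.filter fun B => ∃ a : ℝ, B = BR (E i) (f i) a, ?_, ?_⟩
  · intro i hi a
    rw [mem_biUnion]
    exact ⟨i, mem_range.2 hi, mem_filter.2 ⟨mem_univ _, a, rfl⟩⟩
  · have h1 : ∀ i ∈ range N, (univ.filter fun B : Finset (Fin n → Bool) =>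
        ∃ a : ℝ, B = BR (E i) (f i) a).card ≤ 2 ^ n + 1 := by
      intro i _
      have h2 := hCHN {B : Finset (Fin n → Bool) | ∃ a : ℝ, B = BR (E i) (f i) a} (by
        rintro B ⟨a, rfl⟩ B' ⟨a', rfl⟩ _
        rcases le_total a a' with h | h
        · left
          intro x hx
          unfold BR at hx ⊢
          rw [mem_filter] at hx ⊢
          exact ⟨hx.1, hx.2.1, hx.2.2.trans_le h⟩
        · right
          intro x hx
          unfold BR at hx ⊢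
          rw [mem_filter] at hx ⊢
          exact ⟨hx.1, hx.2.1, hx.2.2.trans_le h⟩)
      refine le_trans (le_of_eq ?_) h2
      rw [Nat.card_eq_fintype_card, ← Fintype.card_subtype]
      exact Fintype.card_congr (Equiv.refl _)
    refine card_biUnion_le.trans ((Finset.sum_le_card_nsmul _ _ _ h1).trans ?_)
    rw [card_range, smul_eq_mul]
    have h3 : 1 ≤ 2 ^ n := Nat.one_le_two_pow
    calc N * (2 ^ n + 1) ≤ 2 ^ n * (2 ^ n + 2 ^ n) := Nat.mul_le_mul hN (by omega)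
      _ = 2 ^ (2 * n + 1) := by
        rw [pow_succ, two_mul n, pow_add]
        ring
      _ ≤ 2 ^ (2 * n + 2) := Nat.pow_le_pow_right (by norm_num) (by omega)

end ARUaux

open ARUaux in
theorem pf_ARU (hTOU : T_TOU) (hLFU : T_LFU) (hHTU : T_HTU) (hKXU : T_KXU) (hEBU : T_EBU)
    (hCHN : Pool.Agent.H53.MW.T_CHN) (hQPC : Pool.Agent.H53.MW.T_QPC) (hREU : T_REU)
    (hPRU : T_PRU) : T_ARU := by
  intro n k m μ H γ t w d s₀ q hH hP 𝓠 N s f i₀ a h𝓠 hs1 hi₀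
  classical
  obtain ⟨θ, hθ⟩ : ∃ θ, θ = th1 n w d s₀ s := ⟨_, rfl⟩
  have hN1 : 1 ≤ N := by omega
  have hpd : 0 < 2 ^ (d * s₀) := by positivity
  have hth0 : th0 n w ≤ θ := by
    rw [hθ]
    unfold th1
    have h1 : th0 n w * 1 ≤ th0 n w * 2 ^ (d * s₀) := Nat.mul_le_mul_left _ hpd
    have h2 : th0 n w * 2 ^ (d * s₀) * 1 ≤ th0 n w * 2 ^ (d * s₀) * s :=
      Nat.mul_le_mul_left _ hs1
    calc th0 n w ≤ th0 n w * 2 ^ (d * s₀) * s := by omega
      _ ≤ 4 * (th0 n w * 2 ^ (d * s₀) * s) + 1 := by omega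
      _ = 4 * (th0 n w * 2 ^ (d * s₀)) * s + 1 := by ring
  have hθw : 2 ^ (n - w) < θ := by
    have : th0 n w = 2 ^ (n - w) + 1 := rfl
    omega
  obtain ⟨-, hKw, hKc⟩ := hKXU H d s₀ w θ hP.wn hθw
  obtain ⟨NS, hNS⟩ : ∃ NS, NS = Nat.card (Fin m → Fin μ) := ⟨_, rfl⟩
  obtain ⟨Y, hY⟩ : ∃ Y, Y = μ ^ (q + 1) := ⟨_, rfl⟩
  obtain ⟨X, hX⟩ : ∃ X, X = s₀ ^ (q + 1) * NS := ⟨_, rfl⟩
  have hμ := hP.μ1
  have hYpos : 0 < Y := by
    rw [hY]
    exact Nat.pow_pos hμ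
  -- the bad formulas
  obtain ⟨b, hb⟩ : ∃ b, b = Nat.card {r : Fin m → Fin μ //
      ∃ i, i < N ∧ BadU H q (KSU H d s₀ θ f i) (AL r)} := ⟨_, rfl⟩
  have hbad : b * Y ≤ N * X := by
    rw [hb]
    apply card_ex
    intro i _
    rw [hY, hX, hNS]
    refine hLFU H w s₀ q hH (KSU H d s₀ θ f i) (hKc f i) ?_
    rintro K ⟨a', rfl⟩ p hp
    exact hKw _ p hp
  have hbX : N ≤ 2 ^ n → 8 * (2 ^ t * b) ≤ NS := by
    intro hN
    have h1 := hP.bad
    have h2 : 8 * (2 ^ t * b) * Y ≤ NS * Y := by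
      calc 8 * (2 ^ t * b) * Y = 8 * (2 ^ t * (b * Y)) := by ring
        _ ≤ 8 * (2 ^ t * (N * X)) := by gcongr
        _ ≤ 8 * (2 ^ t * (2 ^ n * X)) := by gcongr
        _ = 2 ^ (n + t + 3) * s₀ ^ (q + 1) * NS := by
          rw [hX, pow_add, pow_add]
          ring
        _ ≤ Y * NS := by
          rw [hY]
          exact Nat.mul_le_mul_right _ h1
        _ = NS * Y := Nat.mul_comm _ _
    exact Nat.le_of_mul_le_mul_right h2 hYpos
  -- irregular formulas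
  have hreg : N ≤ 2 ^ n → ∃ 𝓕 : Finset (Finset (Fin n → Bool)),
      (∀ i, i < N → ∀ a : ℝ, BR (ESU H d s₀ θ f i) (f i) a ∈ 𝓕) ∧
      8 * (2 ^ t * Nat.card {r : Fin m → Fin μ //
        ¬ RegU H d s₀ (th0 n w) θ (qp 𝓠 t) 𝓕 (AL r)}) ≤ NS := by
    intro hN
    obtain ⟨𝓕, h1, h2⟩ := fam hCHN (ESU H d s₀ θ f) f N hN
    refine ⟨𝓕, h1, ?_⟩
    have h3 := hREU H γ t w d s₀ q θ hH hP hth0 (qp 𝓠 t) 𝓕 (hQPC 𝓠 t h𝓠) h2
    rw [← hNS] at h3
    refine le_trans (le_of_eq ?_) h3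
    rw [pow_add]
    ring
  have hpr : s ≤ 2 ^ n → ∀ 𝓕 : Finset (Finset (Fin n → Bool)),
      (∀ i, i < N → ∀ a : ℝ, BR (ESU H d s₀ θ f i) (f i) a ∈ 𝓕) →
      ∀ r : Fin m → Fin μ, DerivesR (cnfU (FU H r)) f 𝓠 t s i₀ a →
      (∃ i, i < N ∧ BadU H q (KSU H d s₀ θ f i) (AL r)) ∨
      (¬ RegU H d s₀ (th0 n w) θ (qp 𝓠 t) 𝓕 (AL r)) ∨
      (LfU H (AL r) q (BR (ESU H d s₀ θ f (i₀ + 1)) (f i₀) a) ∧
        ∀ p ∈ KerU H d s₀ θ (BR (ESU H d s₀ θ f i₀) (f i₀) a), HitU H (AL r) p) := by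
    intro hs 𝓕 h𝓕 r hD
    by_cases h1 : ∃ i, i < N ∧ BadU H q (KSU H d s₀ θ f i) (AL r)
    · exact Or.inl h1
    by_cases h2 : RegU H d s₀ (th0 n w) θ (qp 𝓠 t) 𝓕 (AL r)
    · right
      right
      have ht2 := hP.t2
      rw [hθ] at h𝓕 h2 h1 ⊢
      exact hPRU H w s₀ d t q s N hH hP.wn hP.n1 (by omega) hP.rr hs 𝓠 f 𝓕 h𝓕 r
        (fun i hi hbi => h1 ⟨i, hi, hbi⟩) h2 i₀ a hi₀ hD
    · exact Or.inr (Or.inl h2)
  -- the exceptions
  have hE : ((ESU H d s₀ θ f (i₀ + 1)).card : ℝ) * 4 ≤ (N : ℝ) * s * 2 ^ ((1 - γ) * n) := by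
    have h1 : (ESU H d s₀ θ f (i₀ + 1)).card ≤ N * (2 ^ (d * s₀) * θ) :=
      (hEBU H d s₀ θ f (i₀ + 1)).trans (Nat.mul_le_mul_right _ hi₀)
    have h2 : θ ≤ 5 * (th0 n w * 2 ^ (d * s₀)) * s := by
      have h3 : 1 ≤ th0 n w * 2 ^ (d * s₀) * s := by
        have : 0 < th0 n w := Nat.succ_pos _
        exact Nat.mul_pos (Nat.mul_pos this hpd) hs1
      rw [hθ]
      unfold th1
      calc 4 * (th0 n w * 2 ^ (d * s₀)) * s + 1 ≤
          4 * (th0 n w * 2 ^ (d * s₀)) * s + th0 n w * 2 ^ (d * s₀) * s := by omega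
        _ = 5 * (th0 n w * 2 ^ (d * s₀)) * s := by ring
    have h3 : (ESU H d s₀ θ f (i₀ + 1)).card * 4 ≤
        N * s * (20 * (2 ^ (d * s₀) * ((2 ^ (n - w) + 1) * 2 ^ (d * s₀)))) := by
      calc _ ≤ N * (2 ^ (d * s₀) * (5 * (th0 n w * 2 ^ (d * s₀)) * s)) * 4 := by
            refine Nat.mul_le_mul_right _ (h1.trans ?_)
            gcongr
        _ = _ := by
          unfold th0
          ring
    have h4 : ((ESU H d s₀ θ f (i₀ + 1)).card : ℝ) * 4 ≤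
        (N : ℝ) * s * (20 * ((2 : ℝ) ^ (d * s₀) * ((2 ^ (n - w) + 1) * 2 ^ (d * s₀)))) := by
      exact_mod_cast h3
    refine h4.trans ?_
    exact mul_le_mul_of_nonneg_left hP.tau (by positivity)
  have hsN : ((N * s : ℕ) : ℝ) ≤ 2 ^ (γ * n) → N ≤ 2 ^ n ∧ s ≤ 2 ^ n := by
    intro h
    have h1 := le_two_pow hP.γ1 h
    have h2 : N * 1 ≤ N * s := Nat.mul_le_mul_left _ hs1
    have h3 : 1 * s ≤ N * s := Nat.mul_le_mul_right _ hN1
    omega
  rw [← hNS]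
  constructor
  · -- (a)
    intro hNs hbb
    obtain ⟨hN, hs⟩ := hsN hNs
    obtain ⟨𝓕, h𝓕, h𝓕c⟩ := hreg hN
    have hall : ∀ r : Fin m → Fin μ, DerivesR (cnfU (FU H r)) f 𝓠 t s i₀ a →
        (∃ i, i < N ∧ BadU H q (KSU H d s₀ θ f i) (AL r)) ∨
        ¬ RegU H d s₀ (th0 n w) θ (qp 𝓠 t) 𝓕 (AL r) := by
      intro r hσ
      rcases hpr hs 𝓕 h𝓕 r hσ with h | h | ⟨⟨T, hT1, hT2, hT3⟩, _⟩
      · exact Or.inl h
      · exact Or.inr h
      exfalso
      have hcap := hTOU.2 H q T _ hT2 hT3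
      have hsub : (univ.filter fun x : Fin n → Bool => f i₀ x < a) ⊆
          ESU H d s₀ θ f (i₀ + 1) ∪ BR (ESU H d s₀ θ f (i₀ + 1)) (f i₀) a := by
        intro x hx
        rw [mem_filter] at hx
        rw [mem_union]
        by_cases hxe : x ∈ ESU H d s₀ θ f (i₀ + 1)
        · exact Or.inl hxe
        · right
          unfold BR
          rw [mem_filter]
          exact ⟨mem_univ _, hxe, hx.2⟩
      have hcard : Nat.card {x : Fin n → Bool // f i₀ x < a} ≤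
          (ESU H d s₀ θ f (i₀ + 1)).card + q * 2 ^ (n - k) := by
        rw [Nat.card_eq_fintype_card, Fintype.card_subtype]
        calc _ ≤ _ := card_le_card hsub
          _ ≤ _ := card_union_le _ _
          _ ≤ _ := Nat.add_le_add_left hcap _
      have hr : ((ESU H d s₀ θ f (i₀ + 1)).card : ℝ) * 4 ≤ 2 ^ n := by
        refine hE.trans ?_
        have h1 : (N : ℝ) * s ≤ 2 ^ (γ * n) := by exact_mod_cast hNs
        calc (N : ℝ) * s * 2 ^ ((1 - γ) * n) ≤ 2 ^ (γ * n) * 2 ^ ((1 - γ) * n) :=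
              mul_le_mul_of_nonneg_right h1 (by positivity)
          _ = 2 ^ n := pow_split n
      have hr' : (ESU H d s₀ θ f (i₀ + 1)).card * 4 ≤ 2 ^ n := by exact_mod_cast hr
      have hcov := hP.cov
      omega
    have ha : Nat.card {r : Fin m → Fin μ // DerivesR (cnfU (FU H r)) f 𝓠 t s i₀ a} ≤
        b + Nat.card {r : Fin m → Fin μ //
          ¬ RegU H d s₀ (th0 n w) θ (qp 𝓠 t) 𝓕 (AL r)} := by
      rw [hb]
      exact (card_mono hall).trans (card_or _ _)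
    have h1 := hbX hN
    have h2 := Nat.mul_le_mul_left (2 ^ t) ha
    rw [Nat.mul_add] at h2
    have h3 : 2 ^ n ≤ 2 ^ t := Nat.pow_le_pow_right (by norm_num) hP.nt
    have h4 := Nat.mul_le_mul_right
      (Nat.card {r : Fin m → Fin μ // DerivesR (cnfU (FU H r)) f 𝓠 t s i₀ a}) h3
    rw [pow_add, show (2 : ℕ) ^ 2 = 4 by norm_num, mul_comm (2 ^ n) 4, mul_assoc]
    omega
  · -- (b)
    intro hbb
    have hbn : Nat.card {x : Fin n → Bool // f i₀ x < a} ≤ 2 ^ n := by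
      rw [Nat.card_eq_fintype_card]
      refine le_trans (Fintype.card_subtype_le _) ?_
      simp
    have hNs : ((N * s : ℕ) : ℝ) ≤ 2 ^ (γ * n) := by
      have h1 : ((N * s : ℕ) : ℝ) * 2 ^ ((1 - γ) * n) < 2 ^ n := by
        refine lt_of_lt_of_le hbb ?_
        exact_mod_cast hbn
      rw [← pow_split (γ := γ) n] at h1
      have h2 : (0 : ℝ) < 2 ^ ((1 - γ) * n) := by positivity
      exact le_of_lt (lt_of_mul_lt_mul_right h1 h2.le)
    obtain ⟨hN, hs⟩ := hsN hNs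
    obtain ⟨𝓕, h𝓕, h𝓕c⟩ := hreg hN
    -- a point outside of the exceptions
    obtain ⟨x, hxθ, hxE⟩ : ∃ x : Fin n → Bool, f i₀ x < a ∧ x ∉ ESU H d s₀ θ f (i₀ + 1) := by
      by_contra hcon
      push Not at hcon
      have hsub : (univ.filter fun x : Fin n → Bool => f i₀ x < a) ⊆
          ESU H d s₀ θ f (i₀ + 1) := by
        intro x hx
        rw [mem_filter] at hx
        exact hcon x hx.2
      have hcard : Nat.card {x : Fin n → Bool // f i₀ x < a} ≤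
          (ESU H d s₀ θ f (i₀ + 1)).card := by
        rw [Nat.card_eq_fintype_card, Fintype.card_subtype]
        exact card_le_card hsub
      have hcr : (Nat.card {x : Fin n → Bool // f i₀ x < a} : ℝ) ≤
          ((ESU H d s₀ θ f (i₀ + 1)).card : ℝ) := by exact_mod_cast hcard
      have h3 : (0 : ℝ) ≤ ((ESU H d s₀ θ f (i₀ + 1)).card : ℝ) := Nat.cast_nonneg _
      rw [Nat.cast_mul] at hbb
      linarith
    have hEEs : ESU H d s₀ θ f (i₀ + 1) = ESU H d s₀ θ f i₀ ∪ univ.filter fun x => ∃ a : ℝ,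
        x ∈ ErrU H d s₀ θ (BR (ESU H d s₀ θ f i₀) (f i₀) a) := rfl
    rw [hEEs, mem_union, not_or, mem_filter, not_and] at hxE
    have hxB : x ∈ BR (ESU H d s₀ θ f i₀) (f i₀) a := by
      unfold BR
      rw [mem_filter]
      exact ⟨mem_univ _, hxE.1, hxθ⟩
    have hxErr : x ∉ ErrU H d s₀ θ (BR (ESU H d s₀ θ f i₀) (f i₀) a) := fun hx =>
      hxE.2 (mem_univ _) ⟨a, hx⟩
    obtain ⟨A, hAK⟩ : ∃ A : Finset (Fin n),
        (A, x) ∈ KerU H d s₀ θ (BR (ESU H d s₀ θ f i₀) (f i₀) a) := by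
      by_contra hcon
      push Not at hcon
      apply hxErr
      unfold ErrU
      rw [mem_filter]
      exact ⟨hxB, hcon⟩
    have hA : A.card < w := hKw _ (A, x) hAK
    have hall : ∀ r : Fin m → Fin μ, DerivesR (cnfU (FU H r)) f 𝓠 t s i₀ a →
        ((∃ i, i < N ∧ BadU H q (KSU H d s₀ θ f i) (AL r)) ∨
        ¬ RegU H d s₀ (th0 n w) θ (qp 𝓠 t) 𝓕 (AL r)) ∨ HitU H (AL r) (A, x) := by
      intro r hσ
      rcases hpr hs 𝓕 h𝓕 r hσ with h | h | ⟨_, h⟩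
      · exact Or.inl (Or.inl h)
      · exact Or.inl (Or.inr h)
      · exact Or.inr (h (A, x) hAK)
    have hhit := hHTU H w s₀ hH (A, x) hA
    rw [← hNS] at hhit
    obtain ⟨c, hc⟩ : ∃ c, c = Nat.card {r : Fin m → Fin μ // HitU H (AL r) (A, x)} :=
      ⟨_, rfl⟩
    obtain ⟨b', hb'⟩ : ∃ b', b' = Nat.card {r : Fin m → Fin μ //
          ¬ RegU H d s₀ (th0 n w) θ (qp 𝓠 t) 𝓕 (AL r)} := ⟨_, rfl⟩
    rw [← hc] at hhit
    rw [← hb'] at h𝓕c
    have ha : Nat.card {r : Fin m → Fin μ // DerivesR (cnfU (FU H r)) f 𝓠 t s i₀ a} ≤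
        b + b' + c := by
      rw [hb, hc, hb']
      exact ((card_mono hall).trans (card_or _ _)).trans (Nat.add_le_add_right (card_or _ _) _)
    have h1 := hbX hN
    have h2 := hP.hit
    have h3 : t ≤ 2 ^ t := Nat.lt_two_pow_self.le
    have h4 : 8 * (t * b) ≤ NS := le_trans (by gcongr) h1
    have h4' : 8 * (t * b') ≤ NS := le_trans (by gcongr) h𝓕c
    have h5 : t * Nat.card {r : Fin m → Fin μ //
        DerivesR (cnfU (FU H r)) f 𝓠 t s i₀ a} ≤ t * b + t * b' + t * c := by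
      rw [← Nat.mul_add, ← Nat.mul_add]
      exact Nat.mul_le_mul_left _ ha
    have h6 : 16 * (t * c) ≤ NS := by
      have h7 : 16 * (t * c) * μ ≤ NS * μ := by
        calc 16 * (t * c) * μ = 16 * (t * (c * μ)) := by ring
          _ ≤ 16 * (t * (s₀ * NS)) := by gcongr
          _ = 16 * (t * s₀) * NS := by ring
          _ ≤ μ * NS := Nat.mul_le_mul_right _ h2
          _ = NS * μ := Nat.mul_comm _ _
      exact Nat.le_of_mul_le_mul_right h7 hμ
    omega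

end Pool.Agent.H90.UK
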