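import Pool.Agent.H53.UK.Targets

/-!
MP_c62aed_lc, uniformly random formulas, permanent lines and work memory: row PRU (copy of
Pool/Agent/H86/MW/PRM.lean). Every derived inequality has a small cover, and the choice hits its
kernel.
-/

set_option autoImplicit false

namespace Pool.Agent.H90.UK

open Finset
open Pool.Agent.H53.UK
open Pool.Agent.H53.MC (Clause Falsified SatBy Line Circuit)
open Pool.Agent.H53.MW (Follows Session DerivesL geL DerivesR cb qp th0 th1)
open Pool.Agent.H15.FLX (BR)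
open Pool.Agent.H97.SHL (DT bl)

theorem esu_mono {n k : ℕ} {ι : Type} (H : ι → KC n k) (d s₀ θ : ℕ)
    (f : ℕ → (Fin n → Bool) → ℝ) {i j : ℕ} (hij : i ≤ j) :
    ESU H d s₀ θ f i ⊆ ESU H d s₀ θ f j := by
  induction hij with
  | refl => exact Subset.refl _
  | step _ ih =>
    refine Subset.trans ih ?_
    rw [ESU]
    exact subset_union_left

theorem pf_PRU (hSEU : T_SEU) (hHSU : T_HSU) (hLKU : T_LKU) : T_PRU := by
  intro n k m μ H w s₀ d t q s N hH hwn hn ht hr hs 𝓠 f 𝓕 h𝓕 r hF hReg i a hi hD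
  set θ := th1 n w d s₀ s with hθ
  have main := hD {p | p.1 < N →
    LfU H (AL r) q (BR (ESU H d s₀ θ f (p.1 + 1)) (f p.1) p.2) ∧
      ∀ p' ∈ KerU H d s₀ θ (BR (ESU H d s₀ θ f p.1) (f p.1) p.2), HitU H (AL r) p'} ?_
  · exact main hi
  · intro i' a' hses hi'
    change i' < N at hi'
    change LfU H (AL r) q (BR (ESU H d s₀ θ f (i' + 1)) (f i') a') ∧
      ∀ p' ∈ KerU H d s₀ θ (BR (ESU H d s₀ θ f i') (f i') a'), HitU H (AL r) p'
    have eB : (geL (f i') a')ᶜ \ ESU H d s₀ θ f i' = BR (ESU H d s₀ θ f i') (f i') a' := by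
      ext x
      rw [Finset.mem_sdiff, Finset.mem_compl, geL, BR, Finset.mem_filter, Finset.mem_filter]
      constructor
      · rintro ⟨h1, h2⟩
        refine ⟨Finset.mem_univ _, h2, ?_⟩
        by_contra h3
        exact h1 ⟨Finset.mem_univ _, not_lt.1 h3⟩
      · rintro ⟨-, h1, h2⟩
        exact ⟨fun h3 => absurd h3.2 (not_le.2 h2), h1⟩
    obtain ⟨S, hS, hDT⟩ := hSEU H t q s ht hs r _ 𝓠 (ESU H d s₀ θ f i') (geL (f i') a')
      (by
        rintro Q ⟨j, b, hj, hjb, rfl⟩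
        have h1 : j < N := lt_trans hj hi'
        obtain ⟨T, a1, a2, a3⟩ := (hjb h1).1
        refine ⟨T, a1, a2, fun x hx => a3 x ?_⟩
        rw [Finset.mem_sdiff, Finset.mem_compl, geL, Finset.mem_filter] at hx
        rw [BR, Finset.mem_filter]
        refine ⟨Finset.mem_univ _, fun h2 => hx.2 (esu_mono H d s₀ θ f hj h2), ?_⟩
        by_contra h3
        exact hx.1 ⟨Finset.mem_univ _, not_lt.1 h3⟩) hses
    rw [eB] at hDT
    have hhit : ∀ p' ∈ KerU H d s₀ θ (BR (ESU H d s₀ θ f i') (f i') a'), HitU H (AL r) p' :=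
      hHSU H w s₀ d (t * t + t * t * q) s hH hwn hn hr (qp 𝓠 t) 𝓕 (AL r) hReg _
        (h𝓕 i' hi' a') S hS hDT
    refine ⟨?_, hhit⟩
    have h2 := hLKU H d s₀ θ q (KSU H d s₀ θ f i') _ (AL r) (hF i' hi') ⟨a', rfl⟩ hhit
    obtain ⟨T, a1, a2, a3⟩ := h2
    refine ⟨T, a1, a2, fun x hx => a3 x ?_⟩
    rw [BR, Finset.mem_filter, ESU, Finset.mem_union, not_or] at hx
    obtain ⟨-, ⟨hx1, hx2⟩, hx3⟩ := hx
    rw [Finset.mem_sdiff]
    constructor
    · rw [BR, Finset.mem_filter]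
      exact ⟨Finset.mem_univ _, hx1, hx3⟩
    · intro hx4
      classical
      exact hx2 (Finset.mem_filter.2 ⟨Finset.mem_univ _, a', hx4⟩)

end Pool.Agent.H90.UK
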